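import Pool.Agent.N177.LP.Defs

/-!
# Points of a compactification
-/

set_option autoImplicit false

open CategoryTheory Limits AlgebraicGeometry IsLocalRing

namespace Pool.Agent.N177.LP

/-- A chart of a compactification of `Spec B`. -/
structure Chart (B : Type) [CommRing B] where
  Λ : Type
  [commRing : CommRing Λ]
  m : ℕ
  t : Fin m → Λ
  snc : IsSNC t
  φ : B →+* Localization.Away (∏ i, t i)

attribute [instance] Chart.commRing

section

variable {B : Type} [CommRing B] {S : Scheme.{0}} (j : Spec (.of B) ⟶ S) [IsOpenImmersion j]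

lemma chart_hom {Λ : Type} [CommRing Λ] {m : ℕ} {t : Fin m → Λ} (ι : Spec (.of Λ) ⟶ S)
    (hpre : ι ⁻¹' Set.range j = {x : PrimeSpectrum Λ | ∏ i, t i ∉ x.asIdeal}) :
    ∃ φ : B →+* Localization.Away (∏ i, t i), Spec.map (CommRingCat.ofHom φ) ≫ j =
      Spec.map (CommRingCat.ofHom (algebraMap Λ (Localization.Away (∏ i, t i)))) ≫ ι := by
  set a := Spec.map (CommRingCat.ofHom (algebraMap Λ (Localization.Away (∏ i, t i)))) with ha
  have hr : Set.range (a ≫ ι) ⊆ Set.range j := by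
    rintro _ ⟨y, rfl⟩
    rw [Scheme.Hom.comp_apply]
    change a y ∈ ι ⁻¹' Set.range j
    rw [hpre]
    intro h
    have h1 : algebraMap Λ (Localization.Away (∏ i, t i)) (∏ i, t i) ∈
      PrimeSpectrum.asIdeal y := h
    exact y.2.ne_top (Ideal.eq_top_of_isUnit_mem _ h1
      (IsLocalization.Away.algebraMap_isUnit (∏ i, t i)))
  refine ⟨(Spec.preimage (IsOpenImmersion.lift j (a ≫ ι) hr)).hom, ?_⟩
  rw [CommRingCat.ofHom_hom, Spec.map_preimage, IsOpenImmersion.lift_fac]

lemma isUnit_cast (L : LocalField) {N : ℕ} (hN : ¬ L.p ∣ N) : IsUnit ((N : ℤ) : L.O) := by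
  by_contra h
  rw [← mem_nonunits_iff, ← mem_maximalIdeal, ← residue_eq_zero_iff] at h
  apply hN
  have h1 : ((N : ℕ) : L.k) = 0 := by simpa using h
  exact (ringChar.spec L.k N).1 h1

omit [IsOpenImmersion j] in
lemma lift_point {N : ℕ} (s : S ⟶ Spec (.of (Localization.Away (N : ℤ)))) (hs : IsProper s)
    (L : LocalField) (hN : ¬ L.p ∣ N) (x : B →+* L.K) :
    ∃ l : Spec (.of L.O) ⟶ S, Spec.map (CommRingCat.ofHom (algebraMap L.O L.K)) ≫ l =
      Spec.map (CommRingCat.ofHom x) ≫ j := by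
  let ρ : Localization.Away (N : ℤ) →+* L.O :=
    IsLocalization.Away.lift (N : ℤ) (g := Int.castRingHom L.O) (isUnit_cast L hN)
  have hsq : (Spec.map (CommRingCat.ofHom x) ≫ j) ≫ s =
      Spec.map (CommRingCat.ofHom (algebraMap L.O L.K)) ≫ Spec.map (CommRingCat.ofHom ρ) := by
    rw [← Spec.map_comp, ← Spec.map_preimage ((Spec.map (CommRingCat.ofHom x) ≫ j) ≫ s)]
    congr 1
    apply CommRingCat.hom_ext
    exact IsLocalization.ringHom_ext (Submonoid.powers (N : ℤ)) (RingHom.ext_int _ _)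
  have hcl : UniversallyClosed s := inferInstance
  rw [UniversallyClosed.eq_valuativeCriterion] at hcl
  obtain ⟨l, hl1, hl2⟩ := (hcl.1 { R := L.O, K := L.K, i₁ := _, i₂ := _, commSq := ⟨hsq⟩ }).exists_lift
  exact ⟨l, hl1⟩

lemma point_chart (L : LocalField) (x : B →+* L.K) (l : Spec (.of L.O) ⟶ S)
    (hl : Spec.map (CommRingCat.ofHom (algebraMap L.O L.K)) ≫ l =
      Spec.map (CommRingCat.ofHom x) ≫ j)
    {Λ : Type} [CommRing Λ] {m : ℕ} {t : Fin m → Λ} (ι : Spec (.of Λ) ⟶ S)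
    [IsOpenImmersion ι] (hι : l (closedPoint L.O) ∈ Set.range ι)
    (hpre : ι ⁻¹' Set.range j = {x : PrimeSpectrum Λ | ∏ i, t i ∉ x.asIdeal})
    (φ : B →+* Localization.Away (∏ i, t i))
    (hφ : Spec.map (CommRingCat.ofHom φ) ≫ j =
      Spec.map (CommRingCat.ofHom (algebraMap Λ (Localization.Away (∏ i, t i)))) ≫ ι) :
    ∃ (α : Λ →+* L.O) (α' : Localization.Away (∏ i, t i) →+* L.K),
      (∀ a, α' (algebraMap _ _ a) = algebraMap L.O L.K (α a)) ∧ x = α'.comp φ := by
  have h1 : l ⁻¹ᵁ ι.opensRange = ⊤ := Scheme.preimage_eq_top_of_closedPoint_mem l hι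
  have h2 : Set.range l ⊆ Set.range ι := by
    rintro _ ⟨y, rfl⟩
    have : y ∈ l ⁻¹ᵁ ι.opensRange := by rw [h1]; trivial
    exact this
  set l' := IsOpenImmersion.lift ι l h2 with hl'
  have hl'' : l' ≫ ι = l := IsOpenImmersion.lift_fac ι l h2
  let α : Λ →+* L.O := (Spec.preimage l').hom
  have hα : Spec.map (CommRingCat.ofHom α) = l' := by
    rw [CommRingCat.ofHom_hom, Spec.map_preimage]
  have h3 : Spec.map (CommRingCat.ofHom ((algebraMap L.O L.K).comp α)) ≫ ι =
      Spec.map (CommRingCat.ofHom x) ≫ j := by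
    rw [CommRingCat.ofHom_comp, Spec.map_comp, hα, Category.assoc, hl'', hl]
  have h4 : IsUnit (((algebraMap L.O L.K).comp α) (∏ i, t i)) := by
    rw [isUnit_iff_ne_zero]
    intro h
    let z : Spec (CommRingCat.of L.K) := closedPoint L.K
    have h5 : Spec.map (CommRingCat.ofHom ((algebraMap L.O L.K).comp α)) z ∈
        ι ⁻¹' Set.range j := by
      rw [Set.mem_preimage, ← Scheme.Hom.comp_apply, h3, Scheme.Hom.comp_apply]
      exact Set.mem_range_self _
    rw [hpre] at h5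
    apply h5
    change ((algebraMap L.O L.K).comp α) (∏ i, t i) ∈ (closedPoint L.K).asIdeal
    rw [h]
    exact Submodule.zero_mem _
  let α' : Localization.Away (∏ i, t i) →+* L.K := IsLocalization.Away.lift (∏ i, t i) h4
  have hα' : α'.comp (algebraMap Λ _) = (algebraMap L.O L.K).comp α :=
    IsLocalization.Away.lift_comp (∏ i, t i) h4
  refine ⟨α, α', fun a => DFunLike.congr_fun hα' a, ?_⟩
  have h6 : Spec.map (CommRingCat.ofHom x) = Spec.map (CommRingCat.ofHom (α'.comp φ)) := by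
    rw [← cancel_mono j, ← h3, CommRingCat.ofHom_comp φ α', Spec.map_comp, Category.assoc, hφ,
      ← Category.assoc, ← Spec.map_comp, ← CommRingCat.ofHom_comp, hα']
  have h7 := Spec.map_injective h6
  exact congrArg CommRingCat.Hom.hom h7

end

/-- The charts of a compactification. -/
theorem exists_charts {B : Type} [CommRing B] {N : ℕ} {S : Scheme.{0}}
    (s : S ⟶ Spec (.of (Localization.Away (N : ℤ)))) (j : Spec (.of B) ⟶ S) (hs : IsProper s)
    (hj : IsSNCComplement j) :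
    ∃ (F : Type) (_ : Fintype F) (c : F → Chart B), ∀ (L : LocalField) (x : B →+* L.K),
      ¬ L.p ∣ N → ∃ (n : F) (α : (c n).Λ →+* L.O)
        (α' : Localization.Away (∏ i, (c n).t i) →+* L.K),
        (∀ a, α' (algebraMap _ _ a) = algebraMap L.O L.K (α a)) ∧ x = α'.comp (c n).φ := by
  obtain ⟨hj1, hj2⟩ := hj
  choose Λ inst m t ι hι hmem hsnc hpre using hj2
  choose φ hφ using fun z => chart_hom j (ι z) (hpre z)
  have hcs : CompactSpace S := QuasiCompact.compactSpace_of_compactSpace s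
  obtain ⟨F, hF⟩ := isCompact_univ.elim_finite_subcover (fun z : S => Set.range (ι z))
    (fun z => (ι z).isOpenEmbedding.isOpen_range)
    (fun z _ => Set.mem_iUnion.2 ⟨z, hmem z⟩)
  refine ⟨F, inferInstance, fun z => ⟨Λ z, m z, t z, hsnc z, φ z⟩, fun L x hp => ?_⟩
  obtain ⟨l, hl⟩ := lift_point j s hs L hp x
  have h1 := hF (Set.mem_univ (l (closedPoint L.O)))
  rw [Set.mem_iUnion₂] at h1
  obtain ⟨z, hz, hlz⟩ := h1
  obtain ⟨α, α', h2, h3⟩ := point_chart j L x l hl (ι z) hlz (hpre z) (φ z) (hφ z)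
  exact ⟨⟨z, hz⟩, α, α', h2, h3⟩

end Pool.Agent.N177.LP
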