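import Pool.Agent.N177.LP.Defs

/-!
# Companions
-/

set_option autoImplicit false

open IsLocalRing PowerSeries

namespace Pool.Agent.N177.LP

section hens

variable (k : Type) [Field k]

lemma max_eq : maximalIdeal k⟦X⟧ = Ideal.span {X} := by
  ext g
  rw [mem_maximalIdeal, mem_nonunits_iff, isUnit_iff_constantCoeff, isUnit_iff_ne_zero, not_not,
    Ideal.mem_span_singleton, X_dvd_iff]

instance complete : IsAdicComplete (maximalIdeal k⟦X⟧) k⟦X⟧ := by
  rw [max_eq]
  infer_instance

instance henselian : HenselianLocalRing k⟦X⟧ where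
  is_henselian f hf a h1 h2 := by
    have h : HenselianRing k⟦X⟧ (maximalIdeal k⟦X⟧) := inferInstance
    exact h.is_henselian f hf a h1 (h2.map _)

end hens

/-- The completed local field with residue field `k` in positive characteristic. -/
noncomputable def laurent (k : Type) [Field k] [Finite k] : LocalField where
  O := k⟦X⟧
  K := FractionRing k⟦X⟧
  finite := Finite.of_equiv _ (residueFieldOfPowerSeries (k := k)).symm.toEquiv

/-- The isomorphism of `k` with the residue field. -/
noncomputable def resEquiv (k : Type) [Field k] [Finite k] : k ≃+* (laurent k).k :=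
  (residueFieldOfPowerSeries (k := k)).symm

lemma resEquiv_constantCoeff {k : Type} [Field k] [Finite k] (g : k⟦X⟧) :
    resEquiv k (constantCoeff g) = residue (laurent k).O g := by
  have h : residueFieldOfPowerSeries (residue k⟦X⟧ g) = constantCoeff g := rfl
  unfold resEquiv
  rw [← h]
  exact (residueFieldOfPowerSeries (k := k)).symm_apply_apply _

/-- A companion of a point of a smooth scheme with a divisor with normal crossings: a point over
`k[[X]]` with the same residue point and the same orders of contact. -/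
theorem exists_companion {Λ : Type} [CommRing Λ] {m : ℕ} {t : Fin m → Λ} (ht : IsSNC t)
    (L : LocalField) (α : Λ →+* L.O) (hα : ∀ i, α (t i) ≠ 0) :
    ∃ β : Λ →+* L.k⟦X⟧, (∀ a, constantCoeff (β a) = residue L.O (α a)) ∧ (∀ i, β (t i) ≠ 0) ∧
      ∀ i r, α (t i) ∈ maximalIdeal L.O ^ r ↔ β (t i) ∈ maximalIdeal L.k⟦X⟧ ^ r := by
  classical
  obtain ⟨π, hπ⟩ := IsDiscreteValuationRing.exists_irreducible L.O
  have h1 : ∀ i, ∃ r : ℕ, Associated (α (t i)) (π ^ r) := fun i =>
    IsDiscreteValuationRing.associated_pow_irreducible (hα i) hπ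
  choose r hr using h1
  let c : Fin m → L.k⟦X⟧ := fun i => if r i = 0 then C (residue L.O (α (t i))) else X ^ (r i)
  let g₁ : MvPolynomial (Fin m) ℤ →+* Λ := MvPolynomial.eval₂Hom (Int.castRingHom Λ) t
  let g₂ : MvPolynomial (Fin m) ℤ →+* L.k⟦X⟧ := MvPolynomial.eval₂Hom (Int.castRingHom _) c
  let _ : Algebra (MvPolynomial (Fin m) ℤ) Λ := g₁.toAlgebra
  let _ : Algebra (MvPolynomial (Fin m) ℤ) L.k⟦X⟧ := g₂.toAlgebra
  have hsm : Algebra.Smooth (MvPolynomial (Fin m) ℤ) Λ := ht
  have hfs : Algebra.FormallySmooth (MvPolynomial (Fin m) ℤ) Λ := hsm.formallySmooth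
  have hr0 : ∀ i, residue L.O (α (t i)) = 0 ↔ r i ≠ 0 := by
    intro i
    rw [residue_eq_zero_iff, mem_maximalIdeal, mem_nonunits_iff, (hr i).isUnit_iff]
    constructor
    · intro h h'
      rw [h', pow_zero] at h
      exact h isUnit_one
    · intro h h'
      exact hπ.not_isUnit ((isUnit_pow_iff h).1 h')
  have hcc : ∀ i, constantCoeff (c i) = residue L.O (α (t i)) := by
    intro i
    by_cases h : r i = 0
    · simp [c, h]
    · have := (hr0 i).2 h
      simp [c, h, this]
  have hcomp : (constantCoeff (R := L.k)).comp g₂ = ((residue L.O).comp α).comp g₁ := by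
    apply MvPolynomial.ringHom_ext
    · intro a
      simp [g₁, g₂]
    · intro i
      simp only [RingHom.comp_apply, g₁, g₂, MvPolynomial.eval₂Hom_X']
      exact hcc i
  -- the homomorphism to the quotient
  let cc : L.k →+* L.k⟦X⟧ ⧸ Ideal.span {(X : L.k⟦X⟧)} := (Ideal.Quotient.mk _).comp C
  have hccmk : ∀ g : L.k⟦X⟧, cc (constantCoeff g) = Ideal.Quotient.mk _ g := by
    intro g
    change Ideal.Quotient.mk _ (C (constantCoeff g)) = _
    rw [Ideal.Quotient.eq, Ideal.mem_span_singleton, X_dvd_iff, map_sub, constantCoeff_C, sub_self]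
  let f : Λ →ₐ[MvPolynomial (Fin m) ℤ] L.k⟦X⟧ ⧸ Ideal.span {(X : L.k⟦X⟧)} :=
    { toRingHom := cc.comp ((residue L.O).comp α)
      commutes' := by
        intro P
        change cc ((((residue L.O).comp α).comp g₁) P) = Ideal.Quotient.mk _ (g₂ P)
        rw [← hcomp]
        exact hccmk (g₂ P) }
  obtain ⟨β, hβ⟩ := Algebra.FormallySmooth.exists_mkₐ_comp_eq_of_isAdicComplete f
  have hβt : ∀ i, β (t i) = c i := by
    intro i
    have h2 := β.commutes (MvPolynomial.X i)
    change β (g₁ (MvPolynomial.X i)) = g₂ (MvPolynomial.X i) at h2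
    simpa [g₁, g₂] using h2
  have hcu : ∀ i, Associated (c i) (X ^ (r i)) := by
    intro i
    by_cases h : r i = 0
    · have h3 : residue L.O (α (t i)) ≠ 0 := fun h' => (hr0 i).1 h' h
      simp only [c, h, if_true, pow_zero]
      rw [associated_one_iff_isUnit, isUnit_iff_constantCoeff, constantCoeff_C]
      exact isUnit_iff_ne_zero.2 h3
    · simp only [c, h, if_false]
      exact Associated.refl _
  refine ⟨β.toRingHom, ?_, ?_, ?_⟩
  · intro a
    have h2 := DFunLike.congr_fun hβ a
    change Ideal.Quotient.mk _ (β a) = cc (residue L.O (α a)) at h2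
    change Ideal.Quotient.mk _ (β a) = Ideal.Quotient.mk _ (C (residue L.O (α a))) at h2
    rw [Ideal.Quotient.eq, Ideal.mem_span_singleton, X_dvd_iff, map_sub, constantCoeff_C,
      sub_eq_zero] at h2
    exact h2
  · intro i
    change β (t i) ≠ 0
    rw [hβt]
    intro h
    have := hcu i
    rw [h] at this
    exact pow_ne_zero _ X_ne_zero ((associated_zero_iff_eq_zero _).1 this.symm)
  · intro i n
    change _ ↔ β (t i) ∈ _
    rw [hβt, hπ.maximalIdeal_eq, max_eq, Ideal.span_singleton_pow, Ideal.span_singleton_pow,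
      Ideal.mem_span_singleton, Ideal.mem_span_singleton, (hr i).dvd_iff_dvd_right,
      (hcu i).dvd_iff_dvd_right, pow_dvd_pow_iff hπ.ne_zero hπ.not_isUnit,
      pow_dvd_pow_iff X_ne_zero X_prime.not_isUnit]

end Pool.Agent.N177.LP
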