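import Pool.Agent.Y143.Defs

/-!
# Local fields, divisors with normal crossings, and the cohomology of the fibres of a family
-/

set_option autoImplicit false

open CategoryTheory Limits AlgebraicGeometry IsLocalRing Module

universe v w

namespace Pool.Agent.N177.LP

open Pool.Agent.Y143

/-! ### Local fields -/

/-- A henselian discrete valuation ring `O` with finite residue field, and its fraction field
`K`. -/
structure LocalField where
  O : Type
  [commRing : CommRing O]
  [isDomain : IsDomain O]
  [isDVR : IsDiscreteValuationRing O]
  [henselian : HenselianLocalRing O]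
  [finite : Finite (ResidueField O)]
  K : Type
  [field : Field K]
  [algebra : Algebra O K]
  [isFractionRing : IsFractionRing O K]

attribute [instance] LocalField.commRing LocalField.isDomain LocalField.isDVR LocalField.henselian
  LocalField.finite LocalField.field LocalField.algebra LocalField.isFractionRing

namespace LocalField

variable (L : LocalField)

/-- The residue field. -/
abbrev k : Type := ResidueField L.O

/-- The number of elements of the residue field. -/
noncomputable def q : ℕ := Nat.card L.k

/-- The residue characteristic. -/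
noncomputable def p : ℕ := ringChar L.k

end LocalField

/-! ### Divisors with strict normal crossings over `ℤ` -/

/-- The morphism `(t_1, …, t_m) : Spec Λ → 𝔸^m` over `ℤ` is smooth. Then `Spec Λ` is smooth over `ℤ`
and the zero set of `t_1 ⋯ t_m` is a divisor with strict normal crossings relative to `ℤ`; all such
divisors are locally of this form. -/
def IsSNC {Λ : Type} [CommRing Λ] {m : ℕ} (t : Fin m → Λ) : Prop :=
  (MvPolynomial.eval₂Hom (Int.castRingHom Λ) t).Smooth

/-- `j : U → S` is an open immersion, `S` is smooth over `ℤ` and the complement of `U` in `S` is a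
divisor with strict normal crossings relative to `ℤ`: every point of `S` has an affine open
neighbourhood `Spec Λ` with `t_1, …, t_m ∈ Λ` such that `(t_1, …, t_m) : Spec Λ → 𝔸^m` is smooth and
`Spec Λ ∩ U = Spec Λ[1/(t_1 ⋯ t_m)]`. -/
def IsSNCComplement {U S : Scheme.{0}} (j : U ⟶ S) : Prop :=
  IsOpenImmersion j ∧ ∀ s : S, ∃ (Λ : Type) (_ : CommRing Λ) (m : ℕ) (t : Fin m → Λ)
    (ι : Spec (.of Λ) ⟶ S), IsOpenImmersion ι ∧ s ∈ Set.range ι ∧ IsSNC t ∧
      ι ⁻¹' Set.range j = {x : PrimeSpectrum Λ | ∏ i, t i ∉ x.asIdeal}

/-- **Hironaka's theorem** (resolution of singularities in characteristic zero, spread out over an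
open subset of `Spec ℤ`): if the domain `A` is finitely generated over `ℤ` and has characteristic
zero, then a nonempty open subscheme `Spec A[1/g]` of `Spec A` is the complement of a divisor with
strict normal crossings relative to `ℤ[1/N]` in a smooth proper scheme `S` over `ℤ[1/N]`, for some
`N ≠ 0` (namely, choose a smooth compactification with boundary a divisor with strict normal
crossings of a smooth nonempty open subscheme of `Spec A ⊗ ℚ`). -/
def Hironaka : Prop :=
  ∀ (A : Type) [CommRing A] [IsDomain A] [CharZero A] [Algebra.FiniteType ℤ A],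
    ∃ (g : A) (N : ℕ), g ≠ 0 ∧ N ≠ 0 ∧ ∃ (S : Scheme.{0})
      (s : S ⟶ Spec (.of (Localization.Away (N : ℤ)))) (j : Spec (.of (Localization.Away g)) ⟶ S),
      IsProper s ∧ IsSNCComplement j

/-! ### The cohomology -/

/-- A vector space with two endomorphisms: the action `F` of an element of the Galois group which
induces the geometric Frobenius, and the logarithm `N` of the monodromy. -/
structure WD (Ω : Type w) [Field Ω] where
  V : Type v
  [addCommGroup : AddCommGroup V]
  [module : Module Ω V]
  F : Module.End Ω V
  N : Module.End Ω V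

attribute [instance] WD.addCommGroup WD.module

/-- `R` and `R'` are potentially isomorphic: there is an isomorphism which is compatible with `N` and
with some power of `F`. -/
def WD.PotIso {Ω : Type w} [Field Ω] (R R' : WD.{v} Ω) : Prop :=
  ∃ (a : ℕ) (e : R.V ≃ₗ[Ω] R'.V), 1 ≤ a ∧ (∀ x, e ((R.F ^ a) x) = (R'.F ^ a) (e x)) ∧
    ∀ x, e (R.N x) = R'.N (e x)

/-- The data of the cohomology groups `H^i(Y_{\bar K}, \bar ℚ_ℓ)`, with the action `F` of an element
of the Galois group of the local field `K` which induces the geometric Frobenius, and with the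
logarithm `N` of the monodromy (the action of a sufficiently small open subgroup of the inertia group
is unipotent), for all schemes `Y → Spec K`. It is only used if `Y` is smooth and proper over `K` and
the prime number `ℓ` is not the residue characteristic. We identify the fields `\bar ℚ_ℓ` for all `ℓ`
with one algebraically closed field `Ω` of characteristic zero. -/
structure Theory (Ω : Type w) [Field Ω] where
  H : ∀ (_ : ℕ) (L : LocalField) (Y : Scheme.{0}), (Y ⟶ Spec (.of L.K)) → ℕ → WD.{v} Ω

namespace Theory

variable {Ω : Type w} [Field Ω] [CharZero Ω] (T : Theory.{v, w} Ω)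

/-- The relation `N F = q F N`: the monodromy operator `N : H → H(-1)` is equivariant. -/
def Equivariance : Prop :=
  ∀ (ℓ : ℕ) (L : LocalField) (Y : Scheme.{0}) (g : Y ⟶ Spec (.of L.K)) (i : ℕ), ℓ.Prime →
    ℓ ≠ L.p → Smooth g → IsProper g → ∀ x, (T.H ℓ L Y g i).N ((T.H ℓ L Y g i).F x) =
      (L.q : Ω) • (T.H ℓ L Y g i).F ((T.H ℓ L Y g i).N x)

/-- **The theorem of Deligne** (the monodromy-weight conjecture in equal characteristic): if the
local field `K` has positive characteristic, then `H^i(Y_{\bar K}, \bar ℚ_ℓ)` is mw pure of weight
`i` for all smooth proper `Y` over `K`. -/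
def EqualCharacteristic : Prop :=
  ∀ (ℓ : ℕ) (L : LocalField) (Y : Scheme.{0}) (g : Y ⟶ Spec (.of L.K)) (i : ℕ), ℓ.Prime →
    ℓ ≠ L.p → Smooth g → IsProper g → ringChar L.K ≠ 0 →
      IsMWPure L.q i (T.H ℓ L Y g i).F (T.H ℓ L Y g i).N

/-- **Tame specialization** (Abhyankar's lemma, the purity of the branch locus and Grothendieck's
local monodromy theorem). Let `(t_1, …, t_m) : Spec Λ → 𝔸^m` be smooth, let `Spec U ⊆ Spec Λ` be the
complement of the divisor with normal crossings `t_1 ⋯ t_m = 0`, let `f : X → S` be smooth and proper
and let `φ : Spec U → S` be a morphism.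

There is a number `M ≠ 0` (divisible by the orders of the semisimple parts of the local monodromies
of `H^*(X ×_S Spec U ⊗ ℂ)` around the components of the divisor) such that, if the residue
characteristic is not `ℓ` and does not divide `M`, the cohomology of the fibre of `X ×_S Spec U` at a
point `α' : Spec K → Spec U` which extends to `α : Spec O → Spec Λ` depends, up to a finite extension
of `K`, only on the residue point `Spec k → Spec Λ` of `α` and on the orders of contact of `α` with
the divisors `t_i = 0`. In fact, the pull-back of the sheaf `R^i f_* ℚ_ℓ` to the complement of the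
divisor in the henselization of `Spec Λ` at the residue point is tamely ramified and it is given by a
representation of the tame fundamental group, which is an extension of the Galois group of `k` by a
product of copies of `∏_{l ≠ p} ℤ_l(1)`. -/
def TameSpecialization : Prop :=
  ∀ (Λ : Type) [CommRing Λ] (m : ℕ) (t : Fin m → Λ), IsSNC t →
  ∀ (U : Type) [CommRing U] [Algebra Λ U] [IsLocalization.Away (∏ i, t i) U]
    (S X : Scheme.{0}) (f : X ⟶ S) (φ : Spec (.of U) ⟶ S), Smooth f → IsProper f →
    ∃ M : ℕ, M ≠ 0 ∧ ∀ (ℓ : ℕ) (L L' : LocalField), ℓ.Prime → ℓ ≠ L.p → ¬ L.p ∣ M →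
      ∀ (e : L.k ≃+* L'.k) (α : Λ →+* L.O) (β : Λ →+* L'.O) (α' : U →+* L.K) (β' : U →+* L'.K),
        (∀ a, α' (algebraMap Λ U a) = algebraMap L.O L.K (α a)) →
        (∀ a, β' (algebraMap Λ U a) = algebraMap L'.O L'.K (β a)) →
        (∀ a, e (residue L.O (α a)) = residue L'.O (β a)) →
        (∀ i r, α (t i) ∈ maximalIdeal L.O ^ r ↔ β (t i) ∈ maximalIdeal L'.O ^ r) →
        ∀ i, (T.H ℓ L _ (pullback.snd f (Spec.map (CommRingCat.ofHom α') ≫ φ)) i).PotIso
          (T.H ℓ L' _ (pullback.snd f (Spec.map (CommRingCat.ofHom β') ≫ φ)) i)

end Theory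

end Pool.Agent.N177.LP
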