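import Pool.Agent.N177.LP.Defs

/-!
# mw purity and powers of Frobenius
-/

set_option autoImplicit false

open Module Polynomial

universe u v w

namespace Pool.Agent.N177.LP

open Pool.Agent.Y143

section weil

variable {Ω : Type u} [Field Ω] [CharZero Ω]

lemma aeval_minpoly_pow {β : Ω} {z : ℂ} (hz : aeval z (minpoly ℚ β) = 0) (k : ℕ) :
    aeval (z ^ k) (minpoly ℚ (β ^ k)) = 0 := by
  have h1 : aeval β ((minpoly ℚ (β ^ k)).comp (X ^ k)) = 0 := by
    rw [aeval_comp]
    simp
  obtain ⟨R, hR⟩ := minpoly.dvd ℚ _ h1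
  have h2 : aeval z ((minpoly ℚ (β ^ k)).comp (X ^ k)) = 0 := by
    rw [hR, map_mul, hz, zero_mul]
  rw [aeval_comp] at h2
  simpa using h2

set_option synthInstance.maxHeartbeats 400000 in
/-- The conjugates of `β ^ k` are the `k`-th powers of the conjugates of `β`. -/
lemma exists_root_of_pow {β : Ω} (hβ : IsAlgebraic ℚ β) (k : ℕ) {y : ℂ}
    (hy : aeval y (minpoly ℚ (β ^ k)) = 0) : ∃ z : ℂ, aeval z (minpoly ℚ β) = 0 ∧ z ^ k = y := by
  let E := IntermediateField.adjoin ℚ {β}
  let b : E := ⟨β, IntermediateField.mem_adjoin_simple_self ℚ β⟩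
  have halgE : Algebra.IsAlgebraic ℚ E :=
    (IntermediateField.isAlgebraic_adjoin_simple hβ.isIntegral)
  have hbmin : minpoly ℚ b = minpoly ℚ β := minpoly.algebraMap_eq (B := E) (B' := Ω)
    (algebraMap E Ω).injective b |>.symm
  have hbkmin : minpoly ℚ (b ^ k) = minpoly ℚ (β ^ k) := by
    have := minpoly.algebraMap_eq (A := ℚ) (B := E) (B' := Ω) (algebraMap E Ω).injective (b ^ k)
    rw [← this]
    rfl
  let F := IntermediateField.adjoin ℚ ({b ^ k} : Set E)
  have hint : IsIntegral ℚ (b ^ k) := (halgE.isAlgebraic (b ^ k)).isIntegral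
  have hyroot : y ∈ (minpoly ℚ (b ^ k)).aroots ℂ := by
    rw [mem_aroots]
    exact ⟨minpoly.ne_zero hint, by rw [hbkmin]; exact hy⟩
  let ψ : F →ₐ[ℚ] ℂ := (IntermediateField.algHomAdjoinIntegralEquiv ℚ hint).symm ⟨y, hyroot⟩
  have hψ : ψ (IntermediateField.AdjoinSimple.gen ℚ (b ^ k)) = y :=
    IntermediateField.algHomAdjoinIntegralEquiv_symm_apply_gen ℚ hint ⟨y, hyroot⟩
  let _ : Algebra F ℂ := ψ.toRingHom.toAlgebra
  have hst : IsScalarTower ℚ F ℂ := IsScalarTower.of_algebraMap_eq (fun x => (ψ.commutes x).symm)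
  have halgF : Algebra.IsAlgebraic F E := Algebra.IsAlgebraic.tower_top (K := ℚ) F
  let Φ : E →ₐ[F] ℂ := IsAlgClosed.lift
  refine ⟨Φ b, ?_, ?_⟩
  · rw [← hbmin]
    have h1 : aeval (Φ.restrictScalars ℚ b) (minpoly ℚ b) = 0 := by
      rw [aeval_algHom_apply, minpoly.aeval, map_zero]
    exact h1
  · rw [← map_pow]
    have h1 : (b ^ k : E) = algebraMap F E (IntermediateField.AdjoinSimple.gen ℚ (b ^ k)) :=
      (IntermediateField.AdjoinSimple.algebraMap_gen ℚ (b ^ k)).symm
    rw [h1, AlgHom.commutes]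
    exact hψ

/-- The `k`-th power of a `q`-Weil number is a `q ^ k`-Weil number of the same weight. -/
lemma weil_pow {q : ℕ} {w : ℤ} {β : Ω} (h : IsWeilNumber q w β) (k : ℕ) :
    IsWeilNumber (q ^ k) w (β ^ k) := by
  obtain ⟨h1, h2⟩ := h
  refine ⟨h1.pow k, fun y hy => ?_⟩
  obtain ⟨z, hz, rfl⟩ := exists_root_of_pow h1 k hy
  rw [norm_pow, h2 z hz, Nat.cast_pow, ← Real.rpow_natCast, ← Real.rpow_natCast (q : ℝ) k,
    ← Real.rpow_mul (Nat.cast_nonneg q), ← Real.rpow_mul (Nat.cast_nonneg q), mul_comm]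

/-- If the `k`-th power is a `q ^ k`-Weil number, the number is a `q`-Weil number. -/
lemma weil_of_pow {q : ℕ} {w : ℤ} {β : Ω} {k : ℕ} (hk : 0 < k)
    (h : IsWeilNumber (q ^ k) w (β ^ k)) : IsWeilNumber q w β := by
  obtain ⟨h1, h2⟩ := h
  refine ⟨h1.of_pow hk, fun z hz => ?_⟩
  have h3 := h2 _ (aeval_minpoly_pow hz k)
  have h4 : ((q : ℝ) ^ ((w : ℝ) / 2)) ^ k = (((q ^ k : ℕ) : ℝ)) ^ ((w : ℝ) / 2) := by
    rw [Nat.cast_pow, ← Real.rpow_natCast, ← Real.rpow_natCast (q : ℝ) k,
      ← Real.rpow_mul (Nat.cast_nonneg q), ← Real.rpow_mul (Nat.cast_nonneg q), mul_comm]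
  rw [norm_pow, ← h4] at h3
  exact (pow_left_inj₀ (norm_nonneg z) (Real.rpow_nonneg (Nat.cast_nonneg q) _) hk.ne').1 h3

end weil

section lin

variable {Ω : Type u} [Field Ω] {V : Type v} [AddCommGroup V] [Module Ω V]
  {N F : Module.End Ω V} {M : ℤ → Submodule Ω V}

lemma pow_map (hM : IsMonodromyFiltration N M) (j : ℕ) {a : ℤ} {x : V} (hx : x ∈ M a) :
    (N ^ j) x ∈ M (a - 2 * j) := by
  induction j with
  | zero => simpa using hx
  | succ j ih =>
    rw [pow_succ', Module.End.mul_apply]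
    have := hM.map _ _ ih
    convert this using 2
    push_cast
    ring

/-- `M_(-a)` is the image of `M_a` under `N ^ a`. -/
lemma exists_pow (hM : IsMonodromyFiltration N M) (a : ℕ) {y : V} (hy : y ∈ M (-a)) :
    ∃ x ∈ M a, (N ^ a) x = y := by
  obtain ⟨b, hb⟩ := hM.bot
  -- descending induction
  have key : ∀ (n : ℕ) (a : ℕ), (a : ℤ) + b ≥ -(n : ℤ) → ∀ y ∈ M (-a),
      ∃ x ∈ M a, (N ^ a) x = y := by
    intro n
    induction n with
    | zero =>
      intro a ha y hy
      have h1 : M (-a) ≤ M b := hM.mono (by push_cast at ha; omega)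
      have h2 : y = 0 := by
        have := h1 hy
        rwa [hb, Submodule.mem_bot] at this
      exact ⟨0, Submodule.zero_mem _, by rw [h2, map_zero]⟩
    | succ n ih =>
      intro a ha y hy
      obtain ⟨x, hx, hxy⟩ := hM.surj a y hy
      obtain ⟨x', hx', hx''⟩ := ih (a + 1) (by push_cast at ha ⊢; omega) (y - (N ^ a) x) (by
        convert hxy using 2
        push_cast
        ring)
      refine ⟨x + N x', Submodule.add_mem _ hx ?_, ?_⟩
      · have := hM.map _ _ hx'
        exact hM.mono (by push_cast; omega) this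
      · rw [map_add, ← Module.End.mul_apply, ← pow_succ, hx'']
        abel
  exact key (Int.toNat (-((a : ℤ) + b))) a (by omega) y hy

/-- `x ∈ M_a` if and only if `N ^ (a + 1) x ∈ M_(-a - 2)`. -/
lemma mem_of_pow (hM : IsMonodromyFiltration N M) (a : ℕ) {x : V}
    (hx : (N ^ (a + 1)) x ∈ M (-a - 2)) : x ∈ M a := by
  obtain ⟨b, hb⟩ := hM.top
  have key : ∀ n : ℕ, x ∈ M (a + n) → x ∈ M a := by
    intro n
    induction n with
    | zero => intro h; simpa using h
    | succ n ih =>
      intro h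
      apply ih
      have h1 : x ∈ M ((a + (n + 1) : ℕ) : ℤ) := by
        convert h using 2
        push_cast
        ring
      have h2 := hM.inj (a + (n + 1)) x h1 (by
        have h3 : (N ^ (a + (n + 1))) x = (N ^ n) ((N ^ (a + 1)) x) := by
          rw [← Module.End.mul_apply, ← pow_add]
          congr 2
          ring
        rw [h3]
        exact hM.mono (by push_cast; omega) (pow_map hM n hx))
      convert h2 using 2
      push_cast
      ring
  refine key (Int.toNat (b - a)) (hM.mono (show b ≤ _ by omega) ?_)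
  rw [hb]
  exact Submodule.mem_top

/-- The monodromy filtration is stable under `F`, if `N F = c F N` with `c ≠ 0`. -/
lemma stable (hM : IsMonodromyFiltration N M) {c : Ω} (hc : c ≠ 0)
    (hF : ∀ x, N (F x) = c • F (N x)) (a : ℤ) {x : V} (hx : x ∈ M a) : F x ∈ M a := by
  have hFj : ∀ (j : ℕ) x, (N ^ j) (F x) = c ^ j • F ((N ^ j) x) := by
    intro j
    induction j with
    | zero => intro x; simp
    | succ j ih =>
      intro x
      rw [pow_succ', Module.End.mul_apply, ih, map_smul, hF, smul_smul, pow_succ,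
        Module.End.mul_apply]
  -- nonpositive indices from nonnegative ones
  have hneg : ∀ a : ℕ, (∀ x ∈ M a, F x ∈ M a) → ∀ x ∈ M (-a), F x ∈ M (-a) := by
    intro a ha y hy
    obtain ⟨x, hx, rfl⟩ := exists_pow hM a hy
    have h1 := pow_map hM a (ha x hx)
    rw [hFj] at h1
    have h2 := Submodule.smul_mem _ (c ^ a)⁻¹ h1
    rw [smul_smul, inv_mul_cancel₀ (pow_ne_zero _ hc), one_smul] at h2
    convert h2 using 2
    ring
  have hpos : ∀ n : ℕ, ∀ a : ℕ, M (a + n) = ⊤ → ∀ x ∈ M a, F x ∈ M a := by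
    intro n
    induction n using Nat.strong_induction_on with
    | _ n ih =>
      intro a ha x hx
      rcases Nat.eq_zero_or_pos n with hn | hn
      · subst hn
        simp only [Nat.cast_zero, add_zero] at ha
        rw [ha]
        exact Submodule.mem_top
      · have h1 : M ((a + 2 : ℕ) + (n - 1 : ℕ)) = ⊤ := by
          rw [eq_top_iff, ← ha]
          exact hM.mono (by omega)
        have h2 := hneg (a + 2) (ih (n - 1) (by omega) (a + 2) h1)
        apply mem_of_pow hM a
        rw [hFj]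
        apply Submodule.smul_mem
        have h3 := pow_map hM (a + 1) hx
        have h4 : F ((N ^ (a + 1)) x) ∈ M (-((a + 2 : ℕ) : ℤ)) := by
          apply h2
          convert h3 using 2
          push_cast
          ring
        convert h4 using 2
        push_cast
        ring
  have hpos' : ∀ a : ℕ, ∀ x ∈ M a, F x ∈ M a := by
    intro a
    obtain ⟨b, hb⟩ := hM.top
    refine hpos (Int.toNat (b - a)) a ?_
    rw [eq_top_iff, ← hb]
    exact hM.mono (by omega)
  rcases le_total 0 a with h | h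
  · lift a to ℕ using h
    exact hpos' a x hx
  · obtain ⟨b, rfl⟩ : ∃ b : ℕ, a = -b := ⟨Int.toNat (-a), by omega⟩
    exact hneg b (hpos' b) x hx

end lin

section mw

variable {Ω : Type u} [Field Ω] [CharZero Ω] {V : Type v} [AddCommGroup V] [Module Ω V]
  {N F : Module.End Ω V} {q : ℕ} {i : ℤ}

omit [CharZero Ω] in
lemma pow_mem {S : Submodule Ω V} (h : ∀ x ∈ S, F x ∈ S) (k : ℕ) {x : V} (hx : x ∈ S) :
    (F ^ k) x ∈ S := by
  induction k with
  | zero => simpa using hx
  | succ k ih =>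
    rw [pow_succ', Module.End.mul_apply]
    exact h _ ih

omit [CharZero Ω] in
lemma pow_sub_mem {S : Submodule Ω V} (h : ∀ x ∈ S, F x ∈ S) (k : ℕ) {x : V} {α : Ω}
    (hx : F x - α • x ∈ S) : (F ^ k) x - α ^ k • x ∈ S := by
  induction k with
  | zero => simp
  | succ k ih =>
    have h1 : (F ^ (k + 1)) x - α ^ (k + 1) • x =
        F ((F ^ k) x - α ^ k • x) + α ^ k • (F x - α • x) := by
      rw [pow_succ', Module.End.mul_apply, map_sub, map_smul, smul_sub, smul_smul, ← pow_succ]
      abel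
    rw [h1]
    exact S.add_mem (h _ ih) (S.smul_mem _ hx)

/-- mw purity and extension of the residue field. -/
theorem mwPure_pow [IsAlgClosed Ω] (h : IsMWPure q i F N) {k : ℕ} (hk : 1 ≤ k) :
    IsMWPure (q ^ k) i (F ^ k) N := by
  obtain ⟨M, hM, h1, h2⟩ := h
  refine ⟨M, hM, fun a x hx => pow_mem (h1 a) k hx, fun a lam x hx hx' hx'' => ?_⟩
  -- factor `X ^ k - lam`
  have hne : (X ^ k - C lam : Polynomial Ω).degree ≠ 0 := by
    rw [degree_X_pow_sub_C (by omega)]
    exact_mod_cast (by omega : k ≠ 0)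
  have hsplit := IsAlgClosed.splits (X ^ k - C lam : Polynomial Ω)
  have hmonic : (X ^ k - C lam : Polynomial Ω).Monic := monic_X_pow_sub_C lam (by omega)
  have hprod := hsplit.eq_prod_roots_of_monic hmonic
  -- the operator
  have key : ∀ s : Multiset Ω, (∀ μ ∈ s, ¬ IsWeilNumber q (a + i) μ) → ∀ x ∈ M a, x ∉ M (a - 1) →
      aeval F (s.map fun μ => X - C μ).prod x ∈ M a ∧
        aeval F (s.map fun μ => X - C μ).prod x ∉ M (a - 1) := by
    intro s
    induction s using Multiset.induction_on with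
    | empty => intro _ x hx hx'; simpa using ⟨hx, hx'⟩
    | cons μ s ih =>
      intro hs x hx hx'
      obtain ⟨h3, h4⟩ := ih (fun μ hμ => hs μ (Multiset.mem_cons_of_mem hμ)) x hx hx'
      rw [Multiset.map_cons, Multiset.prod_cons, map_mul, Module.End.mul_apply]
      set y := aeval F (s.map fun μ => X - C μ).prod x with hy
      have h5 : aeval F (X - C μ) y = F y - μ • y := by
        rw [map_sub, aeval_X, aeval_C, LinearMap.sub_apply, Module.algebraMap_end_apply]
      rw [h5]
      refine ⟨(M a).sub_mem (h1 a _ h3) ((M a).smul_mem _ h3), fun h6 => ?_⟩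
      exact hs μ (Multiset.mem_cons_self μ s) (h2 a μ y h3 h4 h6)
  by_contra hcon
  have h3 := (key (X ^ k - C lam : Polynomial Ω).roots (fun μ hμ hμ' => by
    rw [mem_roots', IsRoot, eval_sub, eval_pow, eval_X, eval_C, sub_eq_zero] at hμ
    apply hcon
    rw [← hμ.2]
    exact weil_pow hμ' k) x hx hx').2
  rw [← hprod, map_sub, map_pow, aeval_X, aeval_C, LinearMap.sub_apply,
    Module.algebraMap_end_apply] at h3
  exact h3 hx''

/-- mw purity and extension of the residue field. -/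
theorem mwPure_of_pow (hq : 1 ≤ q) (hF : ∀ x, N (F x) = (q : Ω) • F (N x)) {k : ℕ} (hk : 1 ≤ k)
    (h : IsMWPure (q ^ k) i (F ^ k) N) : IsMWPure q i F N := by
  obtain ⟨M, hM, h1, h2⟩ := h
  have hst : ∀ a x, x ∈ M a → F x ∈ M a := fun a x hx =>
    stable hM (Nat.cast_ne_zero.2 (by omega)) hF a hx
  exact ⟨M, hM, hst, fun a α x hx hx' hx'' =>
    weil_of_pow hk (h2 a _ x hx hx' (pow_sub_mem (hst (a - 1)) k hx''))⟩

end mw

/-- mw purity is invariant under isomorphisms. -/
lemma mwPure_equiv {Ω : Type w} [Field Ω] [CharZero Ω] {V : Type v} [AddCommGroup V] [Module Ω V]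
    {V' : Type v} [AddCommGroup V'] [Module Ω V'] {F N : Module.End Ω V}
    {F' N' : Module.End Ω V'} (e : V ≃ₗ[Ω] V') (hF : ∀ x, e (F x) = F' (e x))
    (hN : ∀ x, e (N x) = N' (e x)) {q : ℕ} {i : ℤ} (h : IsMWPure q i F' N') :
    IsMWPure q i F N := by
  obtain ⟨M, hM, h1, h2⟩ := h
  have hNp : ∀ (a : ℕ) x, e ((N ^ a) x) = (N' ^ a) (e x) := by
    intro a
    induction a with
    | zero => intro x; simp
    | succ a ih =>
      intro x
      rw [pow_succ, Module.End.mul_apply, ih, hN, pow_succ, Module.End.mul_apply]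
  refine ⟨fun a => (M a).comap e.toLinearMap, ⟨?_, ?_, ?_, ?_, ?_, ?_⟩, ?_, ?_⟩
  · intro a b hab
    exact Submodule.comap_mono (hM.mono hab)
  · obtain ⟨a, ha⟩ := hM.bot
    refine ⟨a, ?_⟩
    rw [ha, Submodule.comap_bot]
    exact LinearMap.ker_eq_bot.2 e.injective
  · obtain ⟨a, ha⟩ := hM.top
    exact ⟨a, by rw [ha, Submodule.comap_top]⟩
  · intro a x hx
    rw [Submodule.mem_comap] at hx ⊢
    have := hM.map a _ hx
    change e (N x) ∈ _
    rw [hN]
    exact this
  · intro a x hx hx'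
    rw [Submodule.mem_comap] at hx hx' ⊢
    refine hM.inj a _ hx ?_
    have h3 : e ((N ^ a) x) ∈ M (-a - 1) := hx'
    rw [hNp] at h3
    exact h3
  · intro a y hy
    rw [Submodule.mem_comap] at hy
    obtain ⟨x, hx, hx'⟩ := hM.surj a _ hy
    refine ⟨e.symm x, ?_, ?_⟩
    · rw [Submodule.mem_comap]
      change e (e.symm x) ∈ _
      rw [e.apply_symm_apply]
      exact hx
    · rw [Submodule.mem_comap]
      change e (y - (N ^ a) (e.symm x)) ∈ _
      rw [map_sub, hNp, e.apply_symm_apply]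
      exact hx'
  · intro a x hx
    rw [Submodule.mem_comap] at hx ⊢
    change e (F x) ∈ _
    rw [hF]
    exact h1 a _ hx
  · intro a α x hx hx' hx''
    rw [Submodule.mem_comap] at hx hx' hx''
    refine h2 a α (e x) hx hx' ?_
    have h3 : e (F x - α • x) ∈ M (a - 1) := hx''
    rw [map_sub, map_smul, hF] at h3
    exact h3

/-- mw purity is invariant under potential isomorphisms. -/
theorem WD.PotIso.mwPure {Ω : Type w} [Field Ω] [CharZero Ω] [IsAlgClosed Ω] {R R' : WD.{v} Ω}
    (h : R.PotIso R') {q : ℕ} (hq : 1 ≤ q) (hR : ∀ x, R.N (R.F x) = (q : Ω) • R.F (R.N x)) {i : ℤ}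
    (hR' : IsMWPure q i R'.F R'.N) : IsMWPure q i R.F R.N := by
  obtain ⟨a, e, ha, hF, hN⟩ := h
  exact mwPure_of_pow hq hR ha (mwPure_equiv e hF hN (mwPure_pow hR' ha))

end Pool.Agent.N177.LP
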