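import Pool.Agent.N177.LP.Lin
import Pool.Agent.N177.LP.Comp
import Pool.Agent.N177.LP.Chart

/-!
# The monodromy-weight conjecture for the fibres of a family, in large residue characteristic
-/

set_option autoImplicit false

open CategoryTheory Limits AlgebraicGeometry IsLocalRing Module

universe v w

namespace Pool.Agent.N177.LP

open Pool.Agent.Y143

lemma LocalField.one_le_q (L : LocalField) : 1 ≤ L.q := Nat.card_pos

lemma LocalField.prime_p (L : LocalField) : L.p.Prime :=
  (CharP.char_is_prime_or_zero L.k (ringChar L.k)).resolve_right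
    (CharP.char_ne_zero_of_finite L.k _)

section laurent

variable (k : Type) [Field k] [Finite k]

lemma laurent_p : (laurent k).p = ringChar k := by
  have h : CharP (laurent k).k (ringChar k) :=
    charP_of_injective_ringHom (f := (resEquiv k : k →+* (laurent k).k)) (resEquiv k).injective _
  exact ringChar.eq_iff.2 h

lemma laurent_q : (laurent k).q = Nat.card k := Nat.card_congr (resEquiv k).symm.toEquiv

lemma laurent_char : ringChar (laurent k).K ≠ 0 := by
  have h1 : CharP k (ringChar k) := inferInstance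
  have h2 : CharP (PowerSeries k) (ringChar k) :=
    charP_of_injective_ringHom (PowerSeries.C_injective (R := k)) (ringChar k)
  have h3 : CharP (FractionRing (PowerSeries k)) (ringChar k) :=
    charP_of_injective_ringHom (IsFractionRing.injective (PowerSeries k)
      (FractionRing (PowerSeries k))) (ringChar k)
  have h4 : ringChar (FractionRing (PowerSeries k)) = ringChar k := ringChar.eq_iff.2 h3
  change ringChar (FractionRing (PowerSeries k)) ≠ 0
  rw [h4]
  exact CharP.char_ne_zero_of_finite k _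

end laurent

section

variable {Ω : Type w} [Field Ω] [CharZero Ω] [IsAlgClosed Ω] {T : Theory.{v, w} Ω}

/-- Points which come from a point of a chart. -/
lemma pure_of_chart (h1 : T.Equivariance) (h2 : T.EqualCharacteristic) (h3 : T.TameSpecialization)
    {Λ : Type} [CommRing Λ] {m : ℕ} {t : Fin m → Λ} (ht : IsSNC t) {S X : Scheme.{0}}
    (f : X ⟶ S) (φ : Spec (.of (Localization.Away (∏ i, t i))) ⟶ S) (hf : Smooth f)
    (hf' : IsProper f) :
    ∃ M : ℕ, M ≠ 0 ∧ ∀ (ℓ : ℕ) (L : LocalField), ℓ.Prime → ℓ ≠ L.p → ¬ L.p ∣ M →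
      ∀ (α : Λ →+* L.O) (α' : Localization.Away (∏ i, t i) →+* L.K),
        (∀ a, α' (algebraMap _ _ a) = algebraMap L.O L.K (α a)) → ∀ i : ℕ,
          IsMWPure L.q i (T.H ℓ L _ (pullback.snd f (Spec.map (CommRingCat.ofHom α') ≫ φ)) i).F
            (T.H ℓ L _ (pullback.snd f (Spec.map (CommRingCat.ofHom α') ≫ φ)) i).N := by
  obtain ⟨M, hM, hM'⟩ := h3 Λ m t ht (Localization.Away (∏ i, t i)) S X f φ hf hf'
  refine ⟨M, hM, fun ℓ L hℓ hℓp hp α α' hα i => ?_⟩
  have hα0 : ∀ i, α (t i) ≠ 0 := by
    have h4 : IsUnit (α' (algebraMap Λ _ (∏ i, t i))) :=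
      (IsLocalization.Away.algebraMap_isUnit (∏ i, t i)).map α'
    rw [hα, map_prod, map_prod, isUnit_iff_ne_zero, Finset.prod_ne_zero_iff] at h4
    intro i h
    apply h4 i (Finset.mem_univ i)
    rw [h, map_zero]
  obtain ⟨β, hβ1, hβ2, hβ3⟩ := exists_companion ht L α hα0
  let L' := laurent L.k
  have hβu : IsUnit (((algebraMap L'.O L'.K).comp β) (∏ i, t i)) := by
    rw [map_prod, isUnit_iff_ne_zero, Finset.prod_ne_zero_iff]
    intro i _ h
    exact hβ2 i ((map_eq_zero_iff _ (IsFractionRing.injective L'.O L'.K)).1 h)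
  let β' : Localization.Away (∏ i, t i) →+* L'.K := IsLocalization.Away.lift (∏ i, t i) hβu
  have hβ' : ∀ a, β' (algebraMap Λ _ a) = algebraMap L'.O L'.K (β a) := fun a =>
    DFunLike.congr_fun (IsLocalization.Away.lift_comp (∏ i, t i) hβu) a
  have h5 := hM' ℓ L L' hℓ hℓp hp (resEquiv L.k) α β α' β' hα hβ' (fun a => by
    rw [← hβ1]
    exact resEquiv_constantCoeff _) hβ3 i
  refine h5.mwPure L.one_le_q (h1 ℓ L _ _ i hℓ hℓp inferInstance inferInstance) ?_
  have h6 := h2 ℓ L' _ (pullback.snd f (Spec.map (CommRingCat.ofHom β') ≫ φ)) i hℓ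
    (by rwa [laurent_p]) inferInstance inferInstance (laurent_char L.k)
  rwa [laurent_q] at h6

/-- The main theorem for the points which come from an affine scheme of finite type. -/
theorem main_affine (h1 : T.Equivariance) (h2 : T.EqualCharacteristic)
    (h3 : T.TameSpecialization) (h4 : Hironaka) {S X : Scheme.{0}} (f : X ⟶ S) (hf : Smooth f)
    (hf' : IsProper f) (A : Type) [CommRing A] [Algebra.FiniteType ℤ A] (φ : Spec (.of A) ⟶ S) :
    ∃ N : ℕ, N ≠ 0 ∧ ∀ (ℓ : ℕ) (L : LocalField), ℓ.Prime → ℓ ≠ L.p → ¬ L.p ∣ N →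
      CharZero L.K → ∀ (x : A →+* L.K) (i : ℕ),
        IsMWPure L.q i (T.H ℓ L _ (pullback.snd f (Spec.map (CommRingCat.ofHom x) ≫ φ)) i).F
          (T.H ℓ L _ (pullback.snd f (Spec.map (CommRingCat.ofHom x) ≫ φ)) i).N := by
  classical
  have hnoeth : IsNoetherianRing A := Algebra.FiniteType.isNoetherianRing ℤ A
  have key : ∀ I : Ideal A, ∃ N : ℕ, N ≠ 0 ∧ ∀ (ℓ : ℕ) (L : LocalField), ℓ.Prime → ℓ ≠ L.p →
      ¬ L.p ∣ N → CharZero L.K → ∀ (x : A →+* L.K), I ≤ RingHom.ker x → ∀ (i : ℕ),
        IsMWPure L.q i (T.H ℓ L _ (pullback.snd f (Spec.map (CommRingCat.ofHom x) ≫ φ)) i).F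
          (T.H ℓ L _ (pullback.snd f (Spec.map (CommRingCat.ofHom x) ≫ φ)) i).N := by
    intro I
    induction I using WellFoundedGT.induction with
    | _ I ih =>
      by_cases htop : I = ⊤
      · refine ⟨1, one_ne_zero, fun ℓ L hℓ hℓp hp h0 x hx => ?_⟩
        have : (1 : A) ∈ RingHom.ker x := hx (htop ▸ Submodule.mem_top)
        rw [RingHom.mem_ker, map_one] at this
        exact absurd this one_ne_zero
      by_cases hI : I.IsPrime
      · by_cases hB : CharZero (A ⧸ I)
        · have hft : @Algebra.FiniteType ℤ (A ⧸ I) _ _ (Ring.toIntAlgebra _) :=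
            Algebra.FiniteType.of_surjective (Ideal.Quotient.mk I).toIntAlgHom
              Ideal.Quotient.mk_surjective
          obtain ⟨g, N, hg, hN, S', s, j, hs, hj⟩ := h4 (A ⧸ I)
          obtain ⟨F, _, c, hc⟩ := exists_charts s j hs hj
          obtain ⟨a, rfl⟩ := Ideal.Quotient.mk_surjective g
          have hJ : I < I ⊔ Ideal.span {a} := by
            refine lt_of_le_of_ne le_sup_left fun h => hg ?_
            rw [Ideal.Quotient.eq_zero_iff_mem, h]
            exact Ideal.mem_sup_right (Ideal.mem_span_singleton_self a)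
          obtain ⟨N₁, hN₁, hN₁'⟩ := ih _ hJ
          let ψ : A →+* Localization.Away (Ideal.Quotient.mk I a) :=
            (algebraMap (A ⧸ I) _).comp (Ideal.Quotient.mk I)
          choose M hM hM' using fun n : F =>
            pure_of_chart h1 h2 h3 (c n).snc f
              (Spec.map (CommRingCat.ofHom ((c n).φ.comp ψ)) ≫ φ) hf hf'
          refine ⟨N * N₁ * ∏ n, M n, mul_ne_zero (mul_ne_zero hN hN₁)
            (Finset.prod_ne_zero_iff.2 fun n _ => hM n), fun ℓ L hℓ hℓp hp h0 x hx i => ?_⟩
          have hpN : ¬ L.p ∣ N := fun h => hp ((h.mul_right _).mul_right _)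
          have hpN₁ : ¬ L.p ∣ N₁ := fun h => hp ((h.mul_left _).mul_right _)
          have hpM : ∀ n, ¬ L.p ∣ M n := fun n h =>
            hp ((h.trans (Finset.dvd_prod_of_mem M (Finset.mem_univ n))).mul_left _)
          by_cases hxa : x a = 0
          · refine hN₁' ℓ L hℓ hℓp hpN₁ h0 x (sup_le hx ?_) i
            rw [Ideal.span_singleton_le_iff_mem, RingHom.mem_ker]
            exact hxa
          · let xB : (A ⧸ I) →+* L.K := Ideal.Quotient.lift I x fun b hb => hx hb
            have hxB : IsUnit (xB (Ideal.Quotient.mk I a)) := isUnit_iff_ne_zero.2 hxa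
            let xg : Localization.Away (Ideal.Quotient.mk I a) →+* L.K :=
              IsLocalization.Away.lift (Ideal.Quotient.mk I a) hxB
            have hxg : xg.comp (algebraMap (A ⧸ I) _) = xB :=
              IsLocalization.Away.lift_comp (Ideal.Quotient.mk I a) hxB
            obtain ⟨n, α, α', hα, hx'⟩ := hc L xg hpN
            have hx'' : x = α'.comp ((c n).φ.comp ψ) := by
              rw [← RingHom.comp_assoc, ← hx', ← RingHom.comp_assoc, hxg]
              rfl
            have hx3 : Spec.map (CommRingCat.ofHom x) ≫ φ = Spec.map (CommRingCat.ofHom α') ≫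
                Spec.map (CommRingCat.ofHom ((c n).φ.comp ψ)) ≫ φ := by
              rw [hx'', CommRingCat.ofHom_comp _ α', Spec.map_comp, Category.assoc]
            rw [hx3]
            exact hM' n ℓ L hℓ hℓp (hpM n) α α' hα i
        · refine ⟨1, one_ne_zero, fun ℓ L hℓ hℓp hp h0 x hx => ?_⟩
          exfalso
          apply hB
          let xB : (A ⧸ I) →+* L.K := Ideal.Quotient.lift I x fun b hb => hx hb
          refine ⟨fun n n' h => ?_⟩
          have := congrArg xB h
          rw [map_natCast, map_natCast] at this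
          exact Nat.cast_injective this
      · rw [Ideal.isPrime_iff] at hI
        push Not at hI
        obtain ⟨a, b, hab, ha, hb⟩ := hI htop
        have hJa : I < I ⊔ Ideal.span {a} := by
          refine lt_of_le_of_ne le_sup_left fun h => ha ?_
          rw [h]
          exact Ideal.mem_sup_right (Ideal.mem_span_singleton_self a)
        have hJb : I < I ⊔ Ideal.span {b} := by
          refine lt_of_le_of_ne le_sup_left fun h => hb ?_
          rw [h]
          exact Ideal.mem_sup_right (Ideal.mem_span_singleton_self b)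
        obtain ⟨N₁, hN₁, hN₁'⟩ := ih _ hJa
        obtain ⟨N₂, hN₂, hN₂'⟩ := ih _ hJb
        refine ⟨N₁ * N₂, mul_ne_zero hN₁ hN₂, fun ℓ L hℓ hℓp hp h0 x hx i => ?_⟩
        have hxab : x a * x b = 0 := by
          rw [← map_mul]
          exact hx hab
        rcases mul_eq_zero.1 hxab with h | h
        · refine hN₁' ℓ L hℓ hℓp (fun h => hp (h.mul_right _)) h0 x (sup_le hx ?_) i
          rw [Ideal.span_singleton_le_iff_mem, RingHom.mem_ker]
          exact h
        · refine hN₂' ℓ L hℓ hℓp (fun h => hp (h.mul_left _)) h0 x (sup_le hx ?_) i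
          rw [Ideal.span_singleton_le_iff_mem, RingHom.mem_ker]
          exact h
  obtain ⟨N, hN, hN'⟩ := key ⊥
  exact ⟨N, hN, fun ℓ L hℓ hℓp hp h0 x i => hN' ℓ L hℓ hℓp hp h0 x bot_le i⟩

/-- The main theorem. -/
theorem main (h1 : T.Equivariance) (h2 : T.EqualCharacteristic) (h3 : T.TameSpecialization)
    (h4 : Hironaka) {S X : Scheme.{0}} (s : S ⟶ Spec (.of ℤ)) (hs : LocallyOfFiniteType s)
    (hs' : QuasiCompact s) (f : X ⟶ S) (hf : Smooth f) (hf' : IsProper f) :
    ∃ N : ℕ, N ≠ 0 ∧ ∀ (ℓ : ℕ) (L : LocalField), ℓ.Prime → ℓ ≠ L.p → ¬ L.p ∣ N →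
      ∀ (x : Spec (.of L.K) ⟶ S) (i : ℕ),
        IsMWPure L.q i (T.H ℓ L _ (pullback.snd f x) i).F
          (T.H ℓ L _ (pullback.snd f x) i).N := by
  classical
  have hcs : CompactSpace S := QuasiCompact.compactSpace_of_compactSpace s
  -- affine charts
  have haff : ∀ z : S, ∃ (A : Type) (_ : CommRing A) (_ : Algebra.FiniteType ℤ A)
      (φ : Spec (.of A) ⟶ S), IsOpenImmersion φ ∧ z ∈ Set.range φ := by
    intro z
    obtain ⟨U, hU, hz, -⟩ := exists_isAffineOpen_mem_and_subset (X := S) (x := z) (U := ⊤) trivial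
    have h5 : LocallyOfFiniteType (hU.fromSpec ≫ s) := inferInstance
    rw [← Spec.map_preimage (hU.fromSpec ≫ s),
      HasRingHomProperty.Spec_iff (P := @LocallyOfFiniteType)] at h5
    refine ⟨Γ(S, U), inferInstance, ?_, hU.fromSpec, inferInstance, ?_⟩
    · have h6 : (Spec.preimage (hU.fromSpec ≫ s)).hom = algebraMap ℤ Γ(S, U) :=
        RingHom.ext_int _ _
      rw [h6] at h5
      exact (RingHom.finiteType_algebraMap).1 h5
    · rw [hU.range_fromSpec]
      exact hz
  choose A hA hA' φ hφ hz using haff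
  obtain ⟨F, hF⟩ := isCompact_univ.elim_finite_subcover (fun z : S => Set.range (φ z))
    (fun z => (φ z).isOpenEmbedding.isOpen_range)
    (fun z _ => Set.mem_iUnion.2 ⟨z, hz z⟩)
  choose N hN hN' using fun z => main_affine h1 h2 h3 h4 f hf hf' (A z) (φ z)
  refine ⟨∏ z ∈ F, N z, Finset.prod_ne_zero_iff.2 fun z _ => hN z,
    fun ℓ L hℓ hℓp hp x i => ?_⟩
  by_cases h0 : ringChar L.K = 0
  · have : CharP L.K 0 := h0 ▸ ringChar.charP L.K
    have hc0 : CharZero L.K := CharP.charP_to_charZero L.K
    let pt : Spec (CommRingCat.of L.K) := closedPoint L.K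
    have h6 := hF (Set.mem_univ (x pt))
    rw [Set.mem_iUnion₂] at h6
    obtain ⟨z, hzF, hxz⟩ := h6
    have h7 : Set.range x ⊆ Set.range (φ z) := by
      rintro _ ⟨y, rfl⟩
      have : y = pt := Subsingleton.elim (α := PrimeSpectrum L.K) y pt
      rw [this]
      exact hxz
    have h8 := IsOpenImmersion.lift_fac (φ z) x h7
    have h9 : x = Spec.map (CommRingCat.ofHom
        (Spec.preimage (IsOpenImmersion.lift (φ z) x h7)).hom) ≫ φ z := by
      rw [CommRingCat.ofHom_hom, Spec.map_preimage, h8]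
    rw [h9]
    exact hN' z ℓ L hℓ hℓp (fun h => hp (h.trans (Finset.dvd_prod_of_mem N hzF))) hc0 _ i
  · exact h2 ℓ L _ (pullback.snd f x) i hℓ hℓp inferInstance inferInstance h0

end

end Pool.Agent.N177.LP
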